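import Mathlib
import Pool.Agent.H644R3.RadoSR

/-!
Two disjoint `M`-SRs for every `k ≥ 2`; in particular the question of the problem has a positive
answer for `k = 2` and `k = 3`.
-/

set_option autoImplicit false

namespace Pool.Agent.Results.MP_5f88fa_co.TwoTransversals

open Pool.Agent.H644R3.RadoSR

/-- Under the hypotheses of the problem:
* for every choice of sets `R i ⊆ F i` with fewer than `k` elements in total there is an `M`-SR
  which avoids all of them;
* there are two disjoint `M`-SRs (for `k = 2` and `k = 3` this gives the `k - 1` disjoint `M`-SRs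
  asked for, with `m = k - 1`). -/
theorem result (α : Type) (k : ℕ) (hk : 2 ≤ k) (M : Matroid α) (F : Fin k → Finset α)
    (hF : ∀ i, (F i).card = k)
    (hc : ∃ c : Fin k → α → Fin k,
      (∀ j : Fin k, ∀ i i' : Fin k, ∀ x : α,
        x ∈ F i → x ∈ F i' → c i x = j → c i' x = j → i = i') ∧
      (∀ j : Fin k, M.Indep {x : α | ∃ i : Fin k, x ∈ F i ∧ c i x = j})) :
    (∀ R : Fin k → Finset α, (∀ i, R i ⊆ F i) → ∑ i, (R i).card < k →
      ∃ f : Fin k → α, (∀ i, f i ∈ F i ∧ f i ∉ R i) ∧ Function.Injective f ∧
        M.Indep (Set.range f)) ∧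
    ∀ m : ℕ, m ≤ 2 → ∃ f : Fin m → Fin k → α,
      (∀ t i, f t i ∈ F i) ∧
      (∀ t, Function.Injective (f t)) ∧
      (∀ t, M.Indep (Set.range (f t))) ∧
      (∀ i t t', f t i = f t' i → t = t') := by
  classical
  obtain ⟨c, hc1, hc2⟩ := hc
  have hcov : Cov M F c := ⟨hc1, hc2⟩
  refine ⟨?_, ?_⟩
  · intro R hR hcard
    obtain ⟨f, hf⟩ := avoid hF hcov R hR hcard
    refine ⟨f, fun i => ?_, hf.2.1, hf.2.2⟩
    have := hf.1 i
    simp only [Finset.mem_sdiff] at this
    exact this
  · intro m hm
    obtain ⟨f, g, hf, hg, hfg⟩ := two hk hF hcov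
    refine ⟨fun t => if (t : ℕ) = 0 then f else g, fun t i => ?_, fun t => ?_, fun t => ?_,
      fun i t t' h => ?_⟩
    · by_cases ht : (t : ℕ) = 0
      · simp only [ht, if_true]; exact hf.1 i
      · simp only [ht, if_false]; exact hg.1 i
    · by_cases ht : (t : ℕ) = 0
      · simp only [ht, if_true]; exact hf.2.1
      · simp only [ht, if_false]; exact hg.2.1
    · by_cases ht : (t : ℕ) = 0
      · simp only [ht, if_true]; exact hf.2.2
      · simp only [ht, if_false]; exact hg.2.2
    · have h1 := t.2
      have h2 := t'.2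
      apply Fin.ext
      by_cases ht : (t : ℕ) = 0 <;> by_cases ht' : (t' : ℕ) = 0
      · omega
      · simp only [ht, ht', if_true, if_false] at h
        exact absurd h (hfg i)
      · simp only [ht, ht', if_true, if_false] at h
        exact absurd h.symm (hfg i)
      · omega

end Pool.Agent.Results.MP_5f88fa_co.TwoTransversals
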